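import Pool.Agent.Run7.h192.Murre.Desc
import Pool.Agent.Run7.h192.Murre.MDefs

/-!
# Chow–Künneth decompositions of direct factors and of dominated varieties

Let `𝒱` be a class of smooth projective varieties over a field `k` which is closed under products
(for example all of them), with Chow groups `C` (rational coefficients) and a Weil cohomology theory
`W`. A Chow–Künneth decomposition `π` is triangular if `π b ∘ γ ∘ π a = 0` for all `a < b` and all
correspondences `γ` of degree zero. No hypothesis of finite dimensionality or nilpotence is made.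

1. `X` has a triangular Chow–Künneth decomposition if and only if for each `j < dim X`, separately,
   there is a decomposition `h(X) = A ⊕ B` with `H(A) = H^(≤ j)(X)`, `H(B) = H^(> j)(X)` and
   `Hom(A, B) = 0`. Then there is also a self-dual one.
2. Let `h(X)` be a direct factor of a twist of `h(Z)`, for example `X` dominated by `Z`. If `Z` has
   a triangular Chow–Künneth decomposition, then `X` has a self-dual triangular one. If moreover the
   only idempotent in `CH^(dim Z)(Z × Z)` which acts as zero on cohomology is `0`, then the same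
   holds for `X`, and the filtrations `F^k CH^i(X)` are independent of the decomposition.
3. If `Z` has a Chow–Künneth decomposition and `F^0 CH^(dim Z)(Z × Z)` is independent of the
   decomposition of `Z × Z`, then each such `X` has a self-dual triangular Chow–Künneth
   decomposition, and if `dim Z > 0`, then all filtrations `F^k CH^i(X)` are independent of the
   decomposition.
-/

open Pool.Agent.H914 Pool.Agent.R903 Pool.Agent.Run7.h192.Murre

universe u v w

namespace Pool.Agent.Results.MP_524776_ag.DirectFactors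

theorem result {k : Type u} [Field k] {𝒱 : VarClass k} {C : ChowTheory.{u, v} 𝒱}
    (W : WeilTheory.{u, v, w} C) :
    (∀ X : 𝒱.Obj, List.TFAE [∀ j < X.dim, ∃ t, IsSplitting W X j t, HasTriangularCK W X,
      HasSelfDualCK W X]) ∧
    (∀ X Z : 𝒱.Obj, Dominates C Z X → IsFactor C X Z) ∧
    (∀ X Z : 𝒱.Obj, IsFactor C X Z → HasTriangularCK W Z → HasSelfDualCK W X ∧
      (W.NoPhantoms Z → W.NoPhantoms X ∧ W.MurreC X)) ∧
    (C.Polarized → ∀ X Z : 𝒱.Obj, IsFactor C X Z → W.HasCK Z → W.Indep (Z.prod Z) Z.dim 0 →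
      HasSelfDualCK W X ∧ (1 ≤ Z.dim → W.MurreC X)) := by
  have h1 : ∀ X : 𝒱.Obj, (∀ j < X.dim, ∃ t, IsSplitting W X j t) → HasSelfDualCK W X :=
    fun X h => exists_selfDual' h
  have h2 : ∀ X Z : 𝒱.Obj, IsFactor C X Z → HasTriangularCK W Z → HasSelfDualCK W X ∧
      (W.NoPhantoms Z → W.NoPhantoms X ∧ W.MurreC X) := by
    rintro X Z ⟨p, q, α, β, F⟩ h
    obtain ⟨π, h3, h4, h5⟩ := h1 X fun j _ => F.splitting_of_triangular h j
    exact ⟨⟨π, h3, h4, h5⟩, fun hN => ⟨F.noPhantoms hN,
      (triangular_of_one (F.noPhantoms hN) h3 h4).murreC⟩⟩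
  refine ⟨fun X => ?_, ?_, h2, ?_⟩
  · tfae_have 1 → 3 := h1 X
    tfae_have 3 → 2 := fun ⟨π, h3, h4, _⟩ => ⟨π, h3, h4⟩
    tfae_have 2 → 1 := fun ⟨π, h3, h4⟩ j _ => splitting_of_triangular h3 h4 j
    tfae_finish
  · intro X Z h
    obtain ⟨q, α, β, F⟩ := exists_factor_of_dominates h
    exact ⟨_, q, α, β, F⟩
  · rintro hP X Z hF ⟨π, hπ⟩ hI
    have hT : W.Triangular Z := (hI.murreB0 hP).triangular
    obtain ⟨h3, h4⟩ := h2 X Z hF ⟨π, hπ, fun a b hab γ hγ => hT π π hπ hπ a b hab γ hγ⟩
    exact ⟨h3, fun hd => (h4 (noPhantoms_of_triangular hd ⟨π, hπ⟩ hT)).2⟩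

end Pool.Agent.Results.MP_524776_ag.DirectFactors
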