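import Pool.Agent.Run7.h848.XG.CK

/-!
# Chow–Künneth decompositions exist, or there are exponentially many cycles

Let `X` be a smooth projective variety over `ℂ` (or over any field, with a Weil cohomology theory) for
which Grothendieck's Künneth standard conjecture `C(X)` holds: the Künneth projectors of `X` are classes
of cycles (known for instance for threefolds with `H^2` algebraic, for abelian varieties, for complete
intersections, for uniruled threefolds, and over finite fields). Let `b` be the sum of the Betti numbers
of `X`, `ρ(n)` the rank of the group of the cycles of all codimensions on `X ^ n` modulo numerical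
equivalence (at most `b ^ n`), and `σ(n) ≥ ρ(n)` the dimension, maybe infinite, of the quotient
`CH^*(X ^ n) / CH^*_⊗(X ^ n)` of the rational Chow group by the smash-nilpotent cycles; it is at most the
dimension of the group of the cycles modulo algebraic equivalence.

**Theorem.** One of the following is true.

(a) `X` has a Chow–Künneth decomposition, and any two of them are conjugate under an invertible
correspondence of degree `0` which acts as the identity on the cohomology, so that the motives
`h^i(X)` are unique up to isomorphism. More generally each decomposition of the cohomology of `X` with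
algebraic projectors (for instance the one into the Hodge structures generated by algebraic and by
transcendental classes in all degrees) lifts to a decomposition of `h(X)`, unique up to conjugation.

(b) For ALL `n`

  `σ(2 n) ≥ ∑ i ≤ n, (n choose i) ρ(2 (n - i)) ≥ (b ^ 2 + 1) ^ n / (n + 1) ^ (b ^ 2)`,

and there is a real number `c > b` with `σ(n) ≥ c ^ n` for all large `n`.

So ONE inequality, for instance

  `dim CH^*(X ^ 4) / CH^*_⊗(X ^ 4) ≤ ρ(4) + 2 ρ(2)`, or
  `dim CH^*(X ^ (2 n)) / CH^*_⊗(X ^ (2 n)) < (b ^ 2 + 1) ^ n / (n + 1) ^ (b ^ 2)` for one `n`,

implies that `X` has a Chow–Künneth decomposition. (Known: it exists if `X` is finite-dimensional in the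
sense of Kimura, Murre; and if the Chow groups of `X` are finite-dimensional. Here the Chow groups
themselves may be infinite-dimensional.)

The setting. `C` is the rigid symmetric monoidal pseudo-abelian category of Chow motives, graded pieces
added, so that the endomorphisms of `T = h(X)` are the correspondences of all degrees, `tp T n = h(X ^ n)`,
`R` is the cohomology, with coefficients in an algebraically closed field. `E₀` is a ring of
correspondences, for instance the ring of the correspondences of degree `0`. The realisation of `E₀`
consists of the classes of the correspondences in `E₀`.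

Proof. If each numerically trivial correspondence from `X` to `X` is nilpotent then the kernel of the
homomorphism from `E₀` to the endomorphisms of the cohomology is a nil ideal, and (a) follows by lifting of
idempotents; the conjugation is by `∑ e'_i e_i`. Otherwise let `y` be a numerically trivial
correspondence which is not nilpotent. If `σ(2)` is finite there is an idempotent `p ≠ 0` among the
numerically trivial endomorphisms of `X`: the endomorphisms whose cycle is smash-nilpotent form a nil
left ideal of finite codimension. Then (b) follows by the insertion of the cycle `p` on `X × X` into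
arbitrary sets of factors of `(X × X) ^ n`, with arbitrary cycles on the product of the other factors,
see `MP_bf8edd_ag.ExponentialGap`, and from the bound for `ρ` in `N64/AF` of the starting tree.
-/

set_option autoImplicit false

open CategoryTheory MonoidalCategory Filter
open Pool.Agent.Y112.SR Pool.Agent.Y112.KD Pool.Agent.N64.AF Pool.Agent.Run7.h848.XG
open scoped ENNReal

namespace Pool.Agent.Results.MP_524776_ag.ExponentialGap

universe v u w t

/-- Chow–Künneth decompositions, or exponentially many cycles modulo smash-nilpotence. -/
theorem result {C : Type u} [Category.{v} C] [Preadditive C] [MonoidalCategory C]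
    [MonoidalPreadditive C] [SymmetricCategory C] [RightRigidCategory C] [IsIdempotentComplete C]
    {Λ : Type t} [Field Λ] [CharZero Λ] [Linear Λ C] [MonoidalLinear Λ C]
    {K : Type w} [Field K] [IsAlgClosed K] [Algebra Λ K] {R : SuperRealisation C K}
    {T : C} [ExactPairing T T] (h : IsPow Λ R T) :
    (∀ E₀ : Subring (End T), Decomposes R E₀) ∨
    ((∀ n : ℕ, ((∑ i ∈ Finset.range (n + 1), n.choose i * numRank Λ (tp T (2 * (n - i))) : ℕ) : ℕ∞) ≤
        dimE Λ ((𝟙_ C ⟶ tp T (2 * n)) ⧸ smashSub Λ (tp T (2 * n)))) ∧
      (∀ n : ℕ, (bt R T ^ 2 + 1) ^ n ≤ (n + 1) ^ (bt R T ^ 2) *
        ∑ i ∈ Finset.range (n + 1), n.choose i * numRank Λ (tp T (2 * (n - i)))) ∧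
      ∃ c : ℝ, (bt R T : ℝ) < c ∧ ∀ᶠ n : ℕ in atTop, ENNReal.ofReal (c ^ n) ≤
        ((dimE Λ ((𝟙_ C ⟶ tp T n) ⧸ smashSub Λ (tp T n)) : ℕ∞) : ℝ≥0∞)) :=
  ck_or h

end Pool.Agent.Results.MP_524776_ag.ExponentialGap
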