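import Pool.Agent.Run7.h43.SD.RelTame

/-!
# Chow–Künneth decompositions from the generation of the cohomology outside the middle degree

Let `W` be a Weil cohomology theory over a field of any characteristic (no Lefschetz theorem is
assumed), and let `𝒳` and `𝒳'` be two classes of smooth projective varieties such that

* the Chow motives of the varieties in `𝒳` are tame (the ideal of the numerically trivial
  self-correspondences is nilpotent; this holds for all motives which are finite-dimensional in the
  sense of Kimura) and their Künneth components are algebraic;
* numerically trivial cycles on `X × X'` are homologically trivial for `X` in `𝒳` and `X'` in `𝒳'`.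

Let `Y` be ANY smooth projective variety, of dimension `d`, such that for all `j > d` the space
`H^j(Y)` is contained in the span of the images of correspondences from the varieties in `𝒳`, and
`H^(2d-j)(Y)` in the span of the images of correspondences from those in `𝒳'`. Then `Y` has a
Chow–Künneth decomposition which is self-dual and whose summands outside the middle degree are tame.
Nothing is assumed about the middle cohomology, the Künneth components or the motive of `Y`.

Cases. (1) `𝒳 = 𝒳'` the class of abelian varieties, or of products of curves, in characteristic
zero: all hypotheses on `𝒳` are theorems (Shermenev, Kimura, Kleiman, Lieberman). So `Y` has a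
Chow–Künneth decomposition if its cohomology outside the middle degree is generated by abelian
varieties, for example if `Y` maps to an abelian variety `A` such that `H^j(A) → H^j(Y)` is surjective
for `j < d` (by the hard Lefschetz theorem for `Y`). (2) `𝒳' = {Y}`: the second condition is empty. If `X` is a smooth hyperplane section of `Y` which is finite-dimensional
and satisfies the Künneth conjecture, and if hom = num on `X × Y`, then `Y` has a Chow–Künneth
decomposition, by the weak Lefschetz theorem.

The proof: by the theorem of `MP_a60482_ag.RelativeKunneth` (trace forms on correspondences through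
`𝒳` and `𝒳'`) the Künneth projectors for `j > d` are induced by cycles in the ideal of the
correspondences which factor through `𝒳`. These are correspondences through tame motives, and the
theorem of `MP_8a7054_ag.TameOutsideTheMiddle` (spectral projectors of an antisymmetric element of this
ideal, which is algebraic over `ℚ` in the ring of correspondences modulo RATIONAL equivalence) applies.
-/

open CategoryTheory Pool.Agent.H914 Pool.Agent.R903 Pool.Agent.Run7.h192.Murre

universe u v w

namespace Pool.Agent.Results.MP_524776_ag.GeneratedOutsideTheMiddle

open Run7.h43.SD

/-- **Chow–Künneth decompositions from generation outside the middle degree.** -/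
theorem result {k : Type u} [Field k] {𝒱 : VarClass k} {C : ChowTheory.{u, v} 𝒱}
    (W : WeilTheory.{u, v, w} C) (𝒳 𝒳' : Set 𝒱.Obj)
    (hT : ∀ X ∈ 𝒳, IsTame C X (C.diagC X))
    (hC : ∀ X ∈ 𝒳, ∀ i ≤ 2 * X.dim, KunnethAlg W X i)
    (hD : ∀ X ∈ 𝒳, ∀ X' ∈ 𝒳', HomEqNum W X X') (Y : 𝒱.Obj)
    (h : ∀ j, Y.dim < j → j ≤ 2 * Y.dim → GenBy W 𝒳 Y j ∧ GenBy W 𝒳' Y (2 * Y.dim - j)) :
    ∃ π : ℕ → C.CH (Y.prod Y), IsTameCK W Y π ∧ SelfDual C π := by
  obtain ⟨π, h1, h2, -⟩ := exists_tame (halfTame_of_generated hT hC hD h)
    (G := Unit) (g := fun _ => C.diagC Y)
    ⟨fun _ => C.diagC_mem Y, rfl, fun _ _ => C.comp_diagC _, fun _ => C.transp_diagC Y⟩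
  exact ⟨π, h1, h2⟩

end Pool.Agent.Results.MP_524776_ag.GeneratedOutsideTheMiddle
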